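import Mathlib
import Pool.Agent.Q89.TW.Model

/-!
# Two pure states with no unique, automorphically equivalent extensions

There are a simple unital C*-algebra `A` and pure states `φ`, `ψ` of `A` such that for no C*-algebra
`B` containing `A` do `φ`, `ψ` have unique state extensions to `B` which are equivalent under an
automorphism of `B`.

`A` is generated on the square summable functions on `W` (a countable vector space over the field
with two elements) by the translations `L w` and the multiplications `U γ` by all characters.  The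
state `ψ` is the only state with `ψ (U γ) = 1` for all `γ` (there are uncountably many `γ`), and `φ`
is the only state with `φ (L w) = 1` for all `w` (countably many).  In an algebra `B` as above, the
state extending `ψ` would be determined by countably many equations, and by compactness it would be
determined by the values at countably many of the `U γ`; but it is not.
-/

set_option autoImplicit false

namespace Pool.Agent.Results.MP_8219a1_an.NoCommonExtension

/-- A state on a (possibly non-unital) C*-algebra: a bounded linear functional of norm one which is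
positive, i.e. takes a nonnegative real value at each `b* b`. -/
def IsState {B : Type*} [NonUnitalCStarAlgebra B] (ρ : B →L[ℂ] ℂ) : Prop :=
  ‖ρ‖ = 1 ∧ ∀ b : B, 0 ≤ (ρ (star b * b)).re ∧ (ρ (star b * b)).im = 0

/-- A pure state: an extreme point of the set of states. -/
def IsPureState {B : Type*} [NonUnitalCStarAlgebra B] (ρ : B →L[ℂ] ℂ) : Prop :=
  ρ ∈ Set.extremePoints ℝ {σ : B →L[ℂ] ℂ | IsState σ}

/-- `φ'` is the unique state of `B` extending `φ`, where `A` sits in `B` through `i`. -/
def IsUniqueStateExtension {A B : Type*} [NonUnitalCStarAlgebra A] [NonUnitalCStarAlgebra B]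
    (i : A →⋆ₙₐ[ℂ] B) (φ : A →L[ℂ] ℂ) (φ' : B →L[ℂ] ℂ) : Prop :=
  IsState φ' ∧ (∀ a, φ' (i a) = φ a) ∧
    ∀ σ : B →L[ℂ] ℂ, IsState σ → (∀ a, σ (i a) = φ a) → σ = φ'

/-- The C*-algebra is simple: it is nonzero and its only closed two-sided ideals are trivial. -/
def IsSimpleCStar (A : Type*) [NonUnitalCStarAlgebra A] : Prop :=
  Nontrivial A ∧ ∀ I : TwoSidedIdeal A, IsClosed (I : Set A) → I = ⊥ ∨ I = ⊤

/-- There are a simple (unital) C*-algebra `A` and pure states `φ`, `ψ` of `A` such that no
C*-algebra `B` containing `A` satisfies both: `φ` and `ψ` have unique state extensions `φ'`, `ψ'` to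
`B`, and `φ' = ψ' ∘ α` for some automorphism `α` of `B`. -/
theorem result.{u} : ∃ (A : Type) (_ : CStarAlgebra A) (φ ψ : A →L[ℂ] ℂ),
    IsSimpleCStar A ∧ IsPureState φ ∧ IsPureState ψ ∧
    ∀ (B : Type u) (_ : NonUnitalCStarAlgebra B) (i : A →⋆ₙₐ[ℂ] B), Function.Injective i →
      ¬ ∃ φ' ψ' : B →L[ℂ] ℂ, IsUniqueStateExtension i φ φ' ∧ IsUniqueStateExtension i ψ ψ' ∧
        ∃ α : B ≃⋆ₐ[ℂ] B, ∀ x, φ' x = ψ' (α x) := by
  refine ⟨Q89.TW.AA, inferInstance, Q89.TW.sys.φ, Q89.TW.sys.ψ,
    ⟨Q89.TW.sys.nontriv, fun I _ => Q89.TW.sys.simple I⟩, Q89.TW.sys.φ_pure,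
    Q89.TW.sys.ψ_pure, ?_⟩
  intro B _ i hi
  rintro ⟨φ', ψ', h1, h2, α, hα⟩
  exact Q89.TW.sys.no_ext i hi h1 h2 α hα

end Pool.Agent.Results.MP_8219a1_an.NoCommonExtension
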